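import Pool.Agent.TH338.DD.Few2

/-!
The multiples `x + m θ`, `|m| ≤ M`, of a real number `θ` which is not a Liouville number: windows
of the semigroup generated by `p` and `q`.
-/

set_option autoImplicit false

open Filter Topology

namespace Pool.Agent.TH463.PiFew

open Pool.Agent.W764.HL Pool.Agent.TH338.DD
open Pool.Agent.W764.FB (T)

open Classical in
/-- Most of the multiples `x + m θ`, `|m| ≤ M`, have windows at `X` which dominate `κ` times
Lebesgue measure. -/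
theorem multiples {p q : ℕ} (hp : 2 ≤ p) (hq : 2 ≤ q) (hpq : Nat.Coprime p q) {κ ε σ : ℝ}
    (hκ0 : 0 ≤ κ) (hκ1 : κ ≤ 1) (hε : 0 < ε) (hσ : 0 < σ) :
    ∃ H0 : ℝ, 1 < H0 ∧ ∀ H : ℝ, H0 ≤ H → ∀ θ τ c : ℝ, 0 ≤ τ → 0 < c →
      (∀ n : ℕ, 1 ≤ n → ∀ k : ℤ, c ≤ (n : ℝ) ^ τ * |n * θ - k|) →
      ∃ C : ℝ, 0 < C ∧ ∀ (M : ℕ) (X : ℝ), 1 ≤ M → C * (M : ℝ) ^ τ ≤ X → ∀ x : ℝ,
        (((Finset.Icc (-(M : ℤ)) M).filter fun m : ℤ =>
          ¬ Dom p q κ ε H X (((x + m * θ : ℝ)) : T)).card : ℝ) ≤ X ^ (κ + σ) := by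
  obtain ⟨H0, hH0, h⟩ := few hp hq hpq hκ0 hκ1 hε hσ
  refine ⟨H0, hH0, fun H hH θ τ c hτ hc hθ => ?_⟩
  obtain ⟨X0, hX0⟩ := h H hH
  refine ⟨max (max X0 1) (2 ^ τ / c), by positivity, fun M X hM hX x => ?_⟩
  have hMR : (1 : ℝ) ≤ M := by exact_mod_cast hM
  have hMτ : (1 : ℝ) ≤ (M : ℝ) ^ τ := Real.one_le_rpow hMR hτ
  have hXm : max X0 1 ≤ X := by
    have h1 : max X0 1 ≤ max (max X0 1) (2 ^ τ / c) := le_max_left _ _
    have h2 : (0 : ℝ) ≤ max (max X0 1) (2 ^ τ / c) :=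
      (zero_le_one.trans (le_max_right X0 1)).trans h1
    nlinarith
  have hX1 : 1 ≤ X := (le_max_right _ _).trans hXm
  have hXX0 : X0 ≤ X := (le_max_left _ _).trans hXm
  have hXs : 0 < X := by linarith
  have hX2 : (2 ^ τ / c) * (M : ℝ) ^ τ ≤ X :=
    (mul_le_mul_of_nonneg_right (le_max_right _ _) (by positivity)).trans hX
  set S : Finset ℤ := (Finset.Icc (-(M : ℤ)) M).filter fun m : ℤ =>
    ¬ Dom p q κ ε H X (((x + m * θ : ℝ)) : T) with hS
  -- separation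
  have hsep : ∀ m ∈ S, ∀ m' ∈ S, m ≠ m' →
      1 / X ≤ ‖(((x + m * θ : ℝ)) : T) - (((x + m' * θ : ℝ)) : T)‖ := by
    intro m hm m' hm' hne
    have hm1 := Finset.mem_Icc.1 (Finset.mem_filter.1 hm).1
    have hm2 := Finset.mem_Icc.1 (Finset.mem_filter.1 hm').1
    -- the difference
    have key : ∀ d : ℤ, d ≠ 0 → |d| ≤ 2 * M → ∀ k : ℤ, 1 / X ≤ |(d : ℝ) * θ - k| := by
      intro d hd hd2 k
      have hn1 : 1 ≤ d.natAbs := Int.natAbs_pos.2 hd
      have hnR : (1 : ℝ) ≤ (d.natAbs : ℝ) := by exact_mod_cast hn1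
      have hn2 : (d.natAbs : ℝ) ≤ 2 * M := by
        have h1 : ((d.natAbs : ℕ) : ℤ) ≤ 2 * M := by rw [Int.natCast_natAbs]; exact hd2
        exact_mod_cast h1
      have hk : ∃ k' : ℤ, |(d : ℝ) * θ - k| = |(d.natAbs : ℝ) * θ - k'| := by
        rcases Int.natAbs_eq d with h1 | h1
        · refine ⟨k, ?_⟩
          have : (d : ℝ) = (d.natAbs : ℝ) := by
            rw [h1]; simp
          rw [this]
        · refine ⟨-k, ?_⟩
          have : (d : ℝ) = -(d.natAbs : ℝ) := by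
            have h2 : ((d : ℤ) : ℝ) = ((-(d.natAbs : ℤ) : ℤ) : ℝ) := by
              exact_mod_cast h1
            rw [h2]; push_cast; simp
          rw [this, ← abs_neg]
          congr 1
          push_cast
          ring
      obtain ⟨k', hk'⟩ := hk
      rw [hk']
      have h3 := hθ d.natAbs hn1 k'
      have h4 : (d.natAbs : ℝ) ^ τ ≤ (2 * M : ℝ) ^ τ :=
        Real.rpow_le_rpow (by linarith) hn2 hτ
      have h5 : (2 * M : ℝ) ^ τ = 2 ^ τ * (M : ℝ) ^ τ :=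
        Real.mul_rpow (by norm_num) (by positivity)
      have h6 : c ≤ 2 ^ τ * (M : ℝ) ^ τ * |(d.natAbs : ℝ) * θ - k'| :=
        h3.trans (by rw [← h5]; exact mul_le_mul_of_nonneg_right h4 (abs_nonneg _))
      have h7 : 2 ^ τ * (M : ℝ) ^ τ ≤ X * c := by
        have e : (2 ^ τ / c) * (M : ℝ) ^ τ * c = 2 ^ τ * (M : ℝ) ^ τ := by
          field_simp
        rw [← e]
        exact mul_le_mul_of_nonneg_right hX2 hc.le
      rw [div_le_iff₀ hXs]
      have h8 : c ≤ X * c * |(d.natAbs : ℝ) * θ - k'| :=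
        h6.trans (mul_le_mul_of_nonneg_right h7 (abs_nonneg _))
      have h9 : c * 1 ≤ c * (|(d.natAbs : ℝ) * θ - k'| * X) := by linarith
      exact le_of_mul_le_mul_left h9 hc
    have e1 : (((x + m * θ : ℝ)) : T) - (((x + m' * θ : ℝ)) : T) =
        (((((m - m' : ℤ)) : ℝ) * θ : ℝ) : T) := by
      rw [← AddCircle.coe_sub]
      congr 1
      push_cast
      ring
    rw [e1, UnitAddCircle.norm_eq]
    refine key (m - m') (sub_ne_zero.2 hne) ?_ _
    rw [abs_le]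
    constructor <;> omega
  set F : Finset T := S.image fun m : ℤ => (((x + m * θ : ℝ)) : T) with hF
  have hinj : Set.InjOn (fun m : ℤ => (((x + m * θ : ℝ)) : T)) S := by
    intro m hm m' hm' he
    by_contra hne
    have h1 := hsep m hm m' hm' hne
    have h2 : (((x + m * θ : ℝ)) : T) = (((x + m' * θ : ℝ)) : T) := he
    rw [h2, sub_self, norm_zero] at h1
    have : 0 < 1 / X := by positivity
    linarith
  have hcard : F.card = S.card := Finset.card_image_of_injOn hinj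
  rw [← hcard]
  refine hX0 X hXX0 F ?_ ?_
  · intro y hy z hz hyz
    obtain ⟨m, hm, rfl⟩ := Finset.mem_image.1 hy
    obtain ⟨m', hm', rfl⟩ := Finset.mem_image.1 hz
    refine hsep m hm m' hm' fun he => hyz (by rw [he])
  · intro y hy
    obtain ⟨m, hm, rfl⟩ := Finset.mem_image.1 hy
    exact (Finset.mem_filter.1 hm).2

end Pool.Agent.TH463.PiFew
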